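import Pool.Agent.Lib_helper7.TC.Defs

/-! Block TC12: the alternating sum of the principal minors of a permutation matrix. -/

set_option autoImplicit false

namespace Pool.Agent.TC

open Polynomial Matrix in
theorem tc12_minorsx {n : ℕ} (M : Matrix (Fin n) (Fin n) ℤ) :
    ∑ s : Finset (Fin n), (-1) ^ s.card *
      (M.submatrix (Subtype.val : s → Fin n) (Subtype.val : s → Fin n)).det = (1 - M).det := by
  set P : ℤ[X] := det (1 + (X : ℤ[X]) • M.map C) with hP
  have h1 : P.eval (-1) = (1 - M).det := by
    have h2 := RingHom.map_det (Polynomial.evalRingHom (-1 : ℤ)) (1 + (X : ℤ[X]) • M.map C)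
    rw [Polynomial.coe_evalRingHom] at h2
    rw [hP, h2]
    congr 1
    ext i j
    by_cases hij : i = j
    · subst hij; simp [sub_eq_add_neg]
    · simp [Matrix.one_apply_ne hij, sub_eq_add_neg]
  set N := max (P.natDegree + 1) (n + 1) with hN
  rw [← h1, Polynomial.eval_eq_sum_range' (lt_of_lt_of_le (Nat.lt_succ_self _) (le_max_left _ _) :
    P.natDegree < N)]
  rw [← Finset.sum_fiberwise_of_maps_to (s := Finset.univ) (t := Finset.range N)
    (g := fun s : Finset (Fin n) => s.card)]
  · refine Finset.sum_congr rfl fun k _ => ?_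
    rw [hP, coeff_det_one_add_X_smul_eq_sum_minors, Finset.sum_mul]
    refine Finset.sum_congr ?_ ?_
    · ext s; simp [Finset.mem_powersetCard]
    · intro s hs
      rw [Finset.mem_powersetCard] at hs
      rw [hs.2, mul_comm]
  · intro s _
    rw [Finset.mem_range]
    have : s.card ≤ n := by simpa using s.card_le_univ
    exact lt_of_lt_of_le (Nat.lt_succ_of_le this) (le_max_right _ _)

theorem tc12_pr {n : ℕ} (hn : 0 < n) (g : Equiv.Perm (Fin n)) :
    ∑ s : Finset (Fin n), (-1) ^ s.card *
        ((Matrix.of fun a b : Fin n => if g a = b then (1 : ℤ) else 0).submatrix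
          (Subtype.val : s → Fin n) (Subtype.val : s → Fin n)).det = 0 := by
  rw [tc12_minorsx]
  refine Matrix.exists_mulVec_eq_zero_iff.1 ⟨fun _ => 1, ?_, ?_⟩
  · intro h
    have := congrFun h ⟨0, hn⟩
    simp at this
  · funext i
    rw [Matrix.sub_mulVec, Matrix.one_mulVec]
    simp [Matrix.mulVec, dotProduct]

end Pool.Agent.TC
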